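import Pool.Agent.helper60.HC.PDefs

/-!
# HC, purity part: interface statements

Owners: `SAN` (existence of admissible data, strong approximation) helper89; `PUR` helper21;
`HE`, `REL` helper60; `RS` (rational structure) helper47.
-/

open scoped BigOperators ComplexConjugate Matrix Topology
open NumberField

namespace HC

/-- SAN: admissible data exist for every level.  (Existence of `P`: take a primitive integer `th` of
`E / ℚ`, `N` divisible by the index of `ℤ[th]` and its discriminant, a prime divisor `p` of the norm of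
`1 + N k th`; `P ^ m = (w)`, `w = 1` mod `N` for suitable `m` because the class group and
`(𝓞 / N)ˣ` are finite.  Strong approximation: the `P`-arithmetic subgroup of the norm one group is dense
in `SL_2 (ℚ_p)`.) -/
def SAN_stmt : Prop := ∀ (E : Type) [Field E] [NumberField E] [IsCMField E] [IsGalois ℚ E]
  (iota : E →+* ℂ) (d : E), Hyp E iota d → (∃ i : E, i ^ 2 = -1) → ∀ N : ℕ, 0 < N →
  ∃ (p m : ℕ) (P : Ideal (𝓞 E)) (w : 𝓞 E), PD d N p m P w

/-- HE: Hecke systems exist and are finite (`g ↦ ker (w g mod w*)` is injective on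
`Gam 1 d N \ GG d N w`: quaternion form). -/
def HE_stmt : Prop := ∀ (E : Type) [Field E] [NumberField E] [IsCMField E] [IsGalois ℚ E]
  (iota : E →+* ℂ) (d : E), Hyp E iota d → ∀ (N p m : ℕ) (P : Ideal (𝓞 E)) (w : 𝓞 E), 3 ≤ N →
  (∃ y : E, IsIntegral ℤ y ∧ (N : E) = d * y) → PD d N p m P w →
  ∃ (n : ℕ) (h : Fin n → Matrix.GeneralLinearGroup (Fin 2) E) (eps : Fin n → ℤ),
    Hecke d N p P (w : E) h eps

/-- PUR: purity.  A nonconstant holomorphic function on the ball with periods `x` on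
`Gam (b + 1) d N` which satisfies (REL) with the constants of type `Xi` for all `g` forces
`1 ∈ Xi`. -/
def PUR_stmt : Prop := ∀ (E : Type) [Field E] [NumberField E] [IsCMField E] [IsGalois ℚ E]
  (iota : E →+* ℂ) (d : E), Hyp E iota d → (∃ i : E, i ^ 2 = -1) → ∀ (b N : ℕ), 1 ≤ b → 0 < N →
  ∀ (Xi : Finset (E ≃ₐ[ℚ] E)), IsType Xi →
  ∀ (f : (Fin (b + 1) → ℂ) → ℂ) (x : Matrix.GeneralLinearGroup (Fin (b + 1 + 1)) E → ℂ),
    DifferentiableOn ℂ f (Ball (b + 1) (iota d).re) → IsPer (b + 1) d N iota f x →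
    (∀ g ∈ UE (b + 1) d, ∃ N' : ℕ, 0 < N' ∧ RelAt b d N N' g iota Xi x) →
    (∃ z ∈ Ball (b + 1) (iota d).re, f z ≠ f 0) → (1 : E ≃ₐ[ℚ] E) ∈ Xi

end HC
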