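import Pool.Agent.helper28.HC.KDefs

/-!
# HC, purity part: definitions

`b + 1` is the dimension of the ball, `Fin (b + 2)` the index set of the hermitian space.  The plane
`V_2` is spanned by the last two coordinates; its ball is the disc.
-/

open scoped BigOperators ComplexConjugate Matrix
open NumberField

namespace HC

/-! ## blocks -/

/-- a `2 × 2` matrix acting on the last two coordinates, the identity on the first `b` -/
def blk (b : ℕ) {R : Type*} [CommRing R] (g : Matrix (Fin 2) (Fin 2) R) :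
    Matrix (Fin (b + 1 + 1)) (Fin (b + 1 + 1)) R :=
  Matrix.reindex (finSumFinEquiv (m := b) (n := 2)) (finSumFinEquiv (m := b) (n := 2))
    (Matrix.fromBlocks (1 : Matrix (Fin b) (Fin b) R) 0 0 g)

theorem blk_one (b : ℕ) {R : Type*} [CommRing R] : blk b (1 : Matrix (Fin 2) (Fin 2) R) = 1 := by
  unfold blk
  rw [Matrix.fromBlocks_one]
  simp

theorem blk_mul (b : ℕ) {R : Type*} [CommRing R] (g h : Matrix (Fin 2) (Fin 2) R) :
    blk b (g * h) = blk b g * blk b h := by
  have e : Matrix.fromBlocks (1 : Matrix (Fin b) (Fin b) R) 0 0 (g * h) =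
      Matrix.fromBlocks 1 0 0 g * Matrix.fromBlocks 1 0 0 h := by
    rw [Matrix.fromBlocks_multiply]; simp
  unfold blk
  rw [e]
  simp [Matrix.submatrix_mul_equiv]

/-- the block embedding of `GL_2` -/
def blkG (b : ℕ) {R : Type*} [CommRing R] :
    Matrix.GeneralLinearGroup (Fin 2) R →* Matrix.GeneralLinearGroup (Fin (b + 1 + 1)) R :=
  Units.map
    { toFun := blk b
      map_one' := blk_one b
      map_mul' := blk_mul b }

/-- the image of a matrix over `E` under an embedding -/
noncomputable def gm {n : ℕ} {E : Type} [Field E] (iota : E →+* ℂ)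
    (g : Matrix.GeneralLinearGroup (Fin n) E) : Matrix (Fin n) (Fin n) ℂ :=
  (g : Matrix (Fin n) (Fin n) E).map iota

/-! ## one complex variable: the disc of `V_2` -/

/-- the disc of squared radius `t` -/
def Dsc (t : ℝ) : Set ℂ := {w | ‖w‖ ^ 2 < t}

/-- factor of automorphy of a `2 × 2` matrix -/
def j2 (g : Matrix (Fin 2) (Fin 2) ℂ) (w : ℂ) : ℂ := g 1 0 * w + g 1 1

/-- fractional linear action of a `2 × 2` matrix -/
noncomputable def m2 (g : Matrix (Fin 2) (Fin 2) ℂ) (w : ℂ) : ℂ := (g 0 0 * w + g 0 1) / j2 g w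

/-- the point of `ℂ ^ (b + 1)` with first coordinate `s` and last coordinate `w`, other coordinates
zero (only used for `1 ≤ b`, when the two coordinates are different) -/
def pt (b : ℕ) (s w : ℂ) : Fin (b + 1) → ℂ :=
  fun i => if i = Fin.last b then w else if i = 0 then s else 0

/-- the coefficient of `s ^ 2` (times 2) of the function `F` along the disc -/
noncomputable def f2 (b : ℕ) (F : (Fin (b + 1) → ℂ) → ℂ) (w : ℂ) : ℂ :=
  iteratedDeriv 2 (fun s : ℂ => F (pt b s w)) 0

/-! ## CM types of a Galois CM field -/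

section
variable {E : Type} [Field E] [NumberField E]

/-- complex conjugation as an automorphism over `ℚ` -/
noncomputable def cc (E : Type) [Field E] [NumberField E] [IsCMField E] : E ≃ₐ[ℚ] E :=
  (IsCMField.complexConj E).restrictScalars ℚ

theorem cc_apply [IsCMField E] (x : E) : cc E x = star x := rfl

/-- the product of the conjugates of `x` under the elements of `Xi` -/
def chi (Xi : Finset (E ≃ₐ[ℚ] E)) (x : E) : E := ∏ s ∈ Xi, s x

open scoped Classical in
/-- the translate `tau Xi` -/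
noncomputable def tw (tau : E ≃ₐ[ℚ] E) (Xi : Finset (E ≃ₐ[ℚ] E)) : Finset (E ≃ₐ[ℚ] E) :=
  Xi.image (fun s => tau * s)

/-- CM types of `E` as subsets of the Galois group -/
def IsType [IsCMField E] (Xi : Finset (E ≃ₐ[ℚ] E)) : Prop := ∀ s, cc E * s ∈ Xi ↔ s ∉ Xi

/-! ## the prime `P` and its generator -/

/-- the element `x` of `E` lies in the ideal `P` of the ring of integers -/
def MemP (P : Ideal (𝓞 E)) (x : E) : Prop := ∃ y : 𝓞 E, y ∈ P ∧ (y : E) = x

/-- the lattice of integral vectors -/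
def OL (E : Type) [Field E] (n : ℕ) : AddSubgroup (Fin n → E) where
  carrier := {v | ∀ i, IsIntegral ℤ (v i)}
  zero_mem' := fun _ => isIntegral_zero
  add_mem' := fun hv hw i => (hv i).add (hw i)
  neg_mem' := fun hv i => (hv i).neg

variable [IsCMField E]

/-- `g` in the unitary group of `V_2` with `g = 1` modulo `N`, determinant `w* / w`, integral after
multiplication by `w` (so `w g` is an element of norm `w w*` of the quaternion order, `= 1` mod `N`) -/
def GG (d : E) (N : ℕ) (w : E) : Set (Matrix.GeneralLinearGroup (Fin 2) E) :=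
  {g | g ∈ UE 1 d ∧ CongOne N (w • (g : Matrix (Fin 2) (Fin 2) E)) ∧
    (g : Matrix (Fin 2) (Fin 2) E).det = star w / w}

/-- strong approximation at `P`: every subgroup of index `p ^ m` of `(𝓞 / w*) ^ 2` is the kernel of
`w g` for some `g` in `GG d N w` -/
def SApp (d : E) (N p m : ℕ) (w : E) : Prop :=
  ∀ H : AddSubgroup (Fin 2 → E), H ≤ OL E 2 → (∀ x ∈ OL E 2, star w • x ∈ H) →
    H.relIndex (OL E 2) = p ^ m →
    ∃ g ∈ GG d N w, ∀ x ∈ OL E 2,
      x ∈ H ↔ (w / star w) • ((g : Matrix (Fin 2) (Fin 2) E) *ᵥ x) ∈ OL E 2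

/-- admissible data: `P` is a prime of norm `p` of `E` with trivial stabiliser in the Galois group,
`P ^ m` is generated by `w = 1` modulo `N`, and strong approximation holds at `P` -/
structure PD (d : E) (N p m : ℕ) (P : Ideal (𝓞 E)) (w : 𝓞 E) : Prop where
  prime : p.Prime
  pos : 0 < m
  isPrime : P.IsPrime
  norm : Ideal.absNorm P = p
  span : P ^ m = Ideal.span {w}
  cong : ∃ y : 𝓞 E, w = 1 + (N : 𝓞 E) * y
  free : ∀ s : E ≃ₐ[ℚ] E, s ≠ 1 → ¬ MemP P (s (w : E))
  sapp : SApp d N p m (w : E)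

open scoped Classical in
/-- a complete system of representatives of `Gam 1 d N \ GG d N w` with the Hecke weights:
`1 - p` if `w h` is divisible by the conjugate of `P`, `1` otherwise -/
structure Hecke (d : E) (N p : ℕ) (P : Ideal (𝓞 E)) (w : E) {J : Type}
    (h : J → Matrix.GeneralLinearGroup (Fin 2) E) (eps : J → ℤ) : Prop where
  mem : ∀ j, h j ∈ GG d N w
  rep : ∀ g ∈ GG d N w, ∃! j, g * (h j)⁻¹ ∈ Gam 1 d N
  wt : ∀ j, eps j = if (∀ i k, MemP P (star (w * (h j : Matrix (Fin 2) (Fin 2) E) i k))) then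
    (1 - p : ℤ) else 1

/-- the scalar `w* / w` in `GL_2` -/
noncomputable def zz (w : E) (hw : w ≠ 0) : Matrix.GeneralLinearGroup (Fin 2) E :=
  Matrix.GeneralLinearGroup.mkOfDetNeZero (Matrix.scalar (Fin 2) (star w / w)) (by
    simp [hw])

/-! ## homomorphisms and relations -/

/-- `x` is additive on `Gam a d N` -/
def IsHom (a : ℕ) (d : E) (N : ℕ) {R : Type} [AddCommMonoid R]
    (x : Matrix.GeneralLinearGroup (Fin (a + 1)) E → R) : Prop :=
  ∀ g ∈ Gam a d N, ∀ h ∈ Gam a d N, x (g * h) = x g + x h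

/-- `x` is the period homomorphism of the function `f` on the ball -/
def IsPer (a : ℕ) (d : E) (N : ℕ) (iota : E →+* ℂ) (f : (Fin a → ℂ) → ℂ)
    (x : Matrix.GeneralLinearGroup (Fin (a + 1)) E → ℂ) : Prop :=
  ∀ g ∈ Gam a d N, ∀ z ∈ Ball a (iota d).re, f (mob (gm iota g) z) = f z + x g

open scoped Classical in
/-- The relation (REL) for the homomorphism `x` on `Gam (b + 1) d N`, transported by `g`, for all
admissible data of level divisible by `N'`, with the constants `chi Xi w` and `chi Xiᶜ w`. -/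
def RelAt (b : ℕ) (d : E) (N N' : ℕ) (g : Matrix.GeneralLinearGroup (Fin (b + 1 + 1)) E)
    {R : Type} [CommRing R] (phi : E →+* R) (Xi : Finset (E ≃ₐ[ℚ] E))
    (x : Matrix.GeneralLinearGroup (Fin (b + 1 + 1)) E → R) : Prop :=
  ∀ (N'' p m : ℕ) (P : Ideal (𝓞 E)) (w : 𝓞 E) (hw : (w : E) ≠ 0), N' ∣ N'' → 0 < N'' →
    PD d N'' p m P w →
    ∀ (J : Type) [Fintype J] (h : J → Matrix.GeneralLinearGroup (Fin 2) E) (eps : J → ℤ),
    Hecke d N'' p P (w : E) h eps →
    ∀ y : Matrix.GeneralLinearGroup (Fin (b + 1 + 1)) E,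
      (∀ j, (g * blkG b (h j)) * y * (g * blkG b (h j))⁻¹ ∈ Gam (b + 1) d N) →
      g * y * g⁻¹ ∈ Gam (b + 1) d N →
      (g * blkG b (zz (w : E) hw)) * y * (g * blkG b (zz (w : E) hw))⁻¹ ∈ Gam (b + 1) d N →
      ∑ j, (eps j : R) * x ((g * blkG b (h j)) * y * (g * blkG b (h j))⁻¹) =
        phi (chi Xi (w : E)) * x (g * y * g⁻¹) +
        phi (chi (Finset.univ \ Xi) (w : E)) *
          x ((g * blkG b (zz (w : E) hw)) * y * (g * blkG b (zz (w : E) hw))⁻¹)

end

end HC
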